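import Pool.Agent.PQP.StmtsZ
import Pool.Agent.Helper10_PQP.POT
import Pool.Agent.Helper40_FLX.Cor

/-!
# Squad PQP, row SLZ: zeros of the map are balanced solutions
-/

set_option autoImplicit false

open scoped InnerProductSpace Topology ContDiff Manifold
open MeasureTheory Filter Set

noncomputable section

namespace Pool.Agent.PQP.H56

open Pool.Agent.Helper42_Paneitz Pool.Agent.Helper82_Vir Pool.Agent.FLX Pool.Agent.PQP
open Pool.Agent.FLX.H40

/-- the first moments of a fixed point vanish -/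
theorem sz_mom (hrea : ReaStmt) (hxis : XisStmt)
    {q h : S4 → ℝ} (hq : Continuous q) (hh : Continuous h)
    (heq : ∀ x, h x = Aop h x + K (Nn q h) x - avg (Nn q h) / 24)
    (hB : ∫ y : S4, Nn q h y • (y : E5) ∂sig = 0) :
    ∀ v : E5, ∫ y : S4, h y * ⟪v, (y : E5)⟫_ℝ ∂sig = 0 := by
  obtain ⟨hx1, hx2, hx3⟩ := hxis
  have hNc := continuous_Nn hq hh
  have hKh : Continuous (K h) := cont_of_ck (hrea h hh)
  have hKN : Continuous (K (Nn q h)) := cont_of_ck (hrea _ hNc)
  have hlin : ∀ v : E5, Continuous fun y : S4 => ⟪v, (y : E5)⟫_ℝ := fun v =>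
    continuous_const.inner continuous_subtype_val
  have hmom : ∀ v : E5, ∫ y : S4, h y * ⟪v, (y : E5)⟫_ℝ ∂sig = 0 := by
    intro v
    set V : E5 := ∫ y : S4, h y • (y : E5) ∂sig with hV
    have hVx : ∀ x : E5, ⟪x, V⟫_ℝ = ∫ y : S4, h y * ⟪x, (y : E5)⟫_ℝ ∂sig := fun x =>
      inner_integral_smul hh x
    have h1 : ∀ x : S4, h x * ⟪v, (x : E5)⟫_ℝ =
        (24 * (K h x * ⟪v, (x : E5)⟫_ℝ) -
          5 / msig * (⟪v, (x : E5)⟫_ℝ * ⟪V, (x : E5)⟫_ℝ)) +
        (K (Nn q h) x * ⟪v, (x : E5)⟫_ℝ - avg (Nn q h) / 24 * ⟪v, (x : E5)⟫_ℝ) := by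
      intro x
      have h2 : Aop h x = 24 * K h x - 5 / msig * ⟪V, (x : E5)⟫_ℝ := by
        unfold Aop
        rw [real_inner_comm (x : E5) V, hVx]
        congr 2
        refine integral_congr_ae (Eventually.of_forall fun y => ?_)
        show ⟪(x : E5), (y : E5)⟫_ℝ * h y = h y * ⟪(x : E5), (y : E5)⟫_ℝ
        ring
      rw [heq x, h2]
      ring
    have i1 : Integrable (fun x : S4 => K h x * ⟪v, (x : E5)⟫_ℝ) sig :=
      integrable_cont (hKh.mul (hlin v))
    have i2 : Integrable (fun x : S4 => ⟪v, (x : E5)⟫_ℝ * ⟪V, (x : E5)⟫_ℝ) sig :=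
      integrable_cont ((hlin v).mul (hlin V))
    have i3 : Integrable (fun x : S4 => K (Nn q h) x * ⟪v, (x : E5)⟫_ℝ) sig :=
      integrable_cont (hKN.mul (hlin v))
    have i4 : Integrable (fun x : S4 => ⟪v, (x : E5)⟫_ℝ) sig := integrable_cont (hlin v)
    have h3 : ∫ x : S4, h x * ⟪v, (x : E5)⟫_ℝ ∂sig =
        (24 * (∫ x : S4, K h x * ⟪v, (x : E5)⟫_ℝ ∂sig) -
          5 / msig * ∫ x : S4, ⟪v, (x : E5)⟫_ℝ * ⟪V, (x : E5)⟫_ℝ ∂sig) +
        ((∫ x : S4, K (Nn q h) x * ⟪v, (x : E5)⟫_ℝ ∂sig) -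
          avg (Nn q h) / 24 * ∫ x : S4, ⟪v, (x : E5)⟫_ℝ ∂sig) := by
      have j1 : Integrable (fun x : S4 => 24 * (K h x * ⟪v, (x : E5)⟫_ℝ)) sig := i1.const_mul _
      have j2 : Integrable (fun x : S4 => 5 / msig * (⟪v, (x : E5)⟫_ℝ * ⟪V, (x : E5)⟫_ℝ)) sig :=
        i2.const_mul _
      have j3 : Integrable (fun x : S4 => avg (Nn q h) / 24 * ⟪v, (x : E5)⟫_ℝ) sig :=
        i4.const_mul _
      have j4 : Integrable (fun x : S4 => 24 * (K h x * ⟪v, (x : E5)⟫_ℝ) -
          5 / msig * (⟪v, (x : E5)⟫_ℝ * ⟪V, (x : E5)⟫_ℝ)) sig := j1.sub j2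
      have j5 : Integrable (fun x : S4 => K (Nn q h) x * ⟪v, (x : E5)⟫_ℝ -
          avg (Nn q h) / 24 * ⟪v, (x : E5)⟫_ℝ) sig := i3.sub j3
      rw [← integral_const_mul, ← integral_const_mul, ← integral_const_mul,
        ← integral_sub j1 j2, ← integral_sub i3 j3, ← integral_add j4 j5]
      exact integral_congr_ae (Eventually.of_forall h1)
    rw [hx1 h hh v, hx2 v V, hx1 _ hNc v, hx3 v] at h3
    have h4 : ∫ y : S4, Nn q h y * ⟪v, (y : E5)⟫_ℝ ∂sig = 0 := by
      rw [← inner_integral_smul hNc v, hB, inner_zero_right]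
    rw [h4, hVx v] at h3
    have h5 : 5 / msig * (msig / 5 * ∫ y : S4, h y * ⟪v, (y : E5)⟫_ℝ ∂sig) =
        ∫ y : S4, h y * ⟪v, (y : E5)⟫_ℝ ∂sig := by
      have := msig_pos.ne'
      field_simp
    rw [h5] at h3
    linarith
  exact hmom

theorem sz_mob (mos : MosStmt) {b : E5} (hb : ‖b‖ < 1) : Continuous (mob b) := by
  have h1 : Continuous fun x : S4 => ((b, x) : E5 × S4) := by fun_prop
  have h2 := mos.1.comp_continuous h1 (fun x => hb)
  exact h2

theorem slz (xis : XisStmt) (sym : FLX.SymStmt) (ker : KerStmt) (rea : ReaStmt) (mos : MosStmt) :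
    SlzStmt := by
  intro ψ h t b hψ hh hb hT hB
  have hψc := continuous_of_sm hψ
  have hmc := sz_mob mos hb
  have hqc : Continuous (qt ψ t b) := by
    unfold qt
    exact continuous_const.mul ((Real.continuous_exp.comp
      (continuous_const.mul (hψc.comp hmc))).sub continuous_const)
  have hNc := continuous_Nn hqc hh
  have hIE := finish ker rea xis sym hqc hh hT hB
  have hmom := sz_mom rea xis hqc hh hT hB
  have eW : (fun x => 6 + qt ψ t b x) = fun x => 6 * Real.exp (t * ψ (mob b x)) := by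
    funext x
    unfold qt
    ring
  rw [eW] at hIE
  have hm := msig_pos
  set f : S4 → ℝ := fun x => Real.exp (t * ψ (mob b x) + 4 * h x) / msig with hf
  have hfc : Continuous f := by
    rw [hf]
    exact (Real.continuous_exp.comp ((continuous_const.mul (hψc.comp hmc)).add
      (continuous_const.mul hh))).div_const _
  have hf0 : ∀ x, 0 < f x := fun x => div_pos (Real.exp_pos _) hm
  have eF : (fun y => 6 * Real.exp (t * ψ (mob b y)) * Real.exp (4 * h y)) =
      fun y => 6 * msig * f y := by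
    funext y
    rw [hf]
    simp only
    rw [Real.exp_add]
    field_simp
  obtain ⟨-, i1, c, i2⟩ := hIE
  rw [eF] at i1 i2
  have hf1 : ∫ y, f y ∂sig = 1 := by
    unfold avg at i1
    rw [integral_const_mul] at i1
    have := hm.ne'
    field_simp at i1
    linarith
  have hD : Dens f := ⟨hfc, hf0, hf1⟩
  obtain ⟨c0, -, hp⟩ := H10.pot_ ker rea
  refine ⟨?_, ⟨hD, ?_⟩, ?_⟩
  · refine ⟨hh, ?_, c, ?_⟩
    · rw [eF]
      exact i1
    · rw [eF]
      exact i2
  · have h1 := (hp f hfc).2.1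
    have h2 : ∀ x, h x = pot f x + (c - c0 * avg f) := by
      intro x
      rw [h1, i2 x, K_smul]
      ring
    refine ⟨Real.exp (4 * (c - c0 * avg f)) / msig, div_pos (Real.exp_pos _) hm, fun x => ?_⟩
    have h3 : t * ψ (mob b x) + 4 * h x =
        4 * (c - c0 * avg f) + (t * ψ (mob b x) + 4 * pot f x) := by
      rw [h2 x]
      ring
    show Real.exp (t * ψ (mob b x) + 4 * h x) / msig = _
    rw [h3, Real.exp_add, Real.exp_add]
    ring
  · unfold Bal
    rw [← inner_self_eq_zero (𝕜 := ℝ)]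
    set V : E5 := ∫ y : S4, f y • (y : E5) ∂sig with hV
    rw [hV, inner_integral_smul hfc V]
    have e1 : ∀ y : S4, f y * ⟪V, (y : E5)⟫_ℝ = (6 * msig)⁻¹ *
        (Nn (qt ψ t b) h y * ⟪V, (y : E5)⟫_ℝ + (6 * ⟪V, (y : E5)⟫_ℝ +
          24 * (h y * ⟪V, (y : E5)⟫_ℝ))) := by
      intro y
      have e2 : 6 * msig * f y = Nn (qt ψ t b) h y + 6 + 24 * h y := by
        have e4 : 6 * Real.exp (t * ψ (mob b y)) * Real.exp (4 * h y) = 6 * msig * f y :=
          congrFun eF y
        rw [← e4]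
        unfold Nn qt
        ring
      have e3 : f y = (6 * msig)⁻¹ * (6 * msig * f y) := by
        rw [inv_mul_cancel_left₀ (by positivity)]
      rw [e3, e2]
      ring
    simp_rw [e1]
    have hlin : Continuous fun y : S4 => ⟪V, (y : E5)⟫_ℝ :=
      continuous_const.inner continuous_subtype_val
    have j1 : Integrable (fun y : S4 => Nn (qt ψ t b) h y * ⟪V, (y : E5)⟫_ℝ) sig :=
      integrable_cont (hNc.mul hlin)
    have j2 : Integrable (fun y : S4 => 6 * ⟪V, (y : E5)⟫_ℝ) sig :=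
      integrable_cont (continuous_const.mul hlin)
    have j3 : Integrable (fun y : S4 => 24 * (h y * ⟪V, (y : E5)⟫_ℝ)) sig :=
      integrable_cont (continuous_const.mul (hh.mul hlin))
    have j4 : Integrable (fun y : S4 => 6 * ⟪V, (y : E5)⟫_ℝ + 24 * (h y * ⟪V, (y : E5)⟫_ℝ)) sig :=
      j2.add j3
    rw [integral_const_mul, integral_add j1 j4, integral_add j2 j3, integral_const_mul,
      integral_const_mul, hmom V, xis.2.2 V, ← inner_integral_smul hNc V]
    have hB' : ∫ y : S4, Nn (qt ψ t b) h y • (y : E5) ∂sig = 0 := hB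
    rw [hB', inner_zero_right]
    ring

end Pool.Agent.PQP.H56
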