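import Pool.Agent.PQP.StmtsZ

/-!
# Squad PQP, row SMT: small powers, balanced solutions are nearly uniform
-/

set_option autoImplicit false

open scoped InnerProductSpace Topology ContDiff Manifold
open MeasureTheory Filter Set

noncomputable section

namespace Pool.Agent.PQP.H56

open Pool.Agent.Helper42_Paneitz Pool.Agent.Helper82_Vir Pool.Agent.FLX Pool.Agent.PQP

theorem sm_sq0 : FLX.sq (0 : E5) = 1 := by
  unfold FLX.sq
  rw [norm_zero]
  norm_num

theorem sm_pull0 (moa : MoaStmt) (f : S4 → ℝ) : pull (0 : E5) f = f := by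
  funext x
  have h0 : ‖(0 : E5)‖ < 1 := by rw [norm_zero]; exact one_pos
  have h1 := (moa 0 h0).2.1 x
  have h2 : mobE (0 : E5) (x : E5) = (x : E5) := by
    unfold mobE
    rw [inner_zero_left, sm_sq0]
    simp
  have h3 : mob (0 : E5) x = x := Subtype.ext (h1.trans h2)
  unfold pull Jac
  rw [h3, inner_zero_left, norm_zero]
  norm_num

theorem sm_log {y η : ℝ} (h : |y - 1| ≤ η) (h1 : η ≤ 1 / 2) : |Real.log y| ≤ 2 * η := by
  rw [abs_le] at h
  have hy : 1 / 2 ≤ y := by linarith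
  have h2 := Real.log_le_sub_one_of_pos (by linarith : 0 < y)
  have h3 := Real.one_sub_inv_le_log_of_pos (by linarith : 0 < y)
  have h4 : -(2 * η) ≤ 1 - y⁻¹ := by
    have h5 : y⁻¹ ≤ 1 + 2 * η := by
      rw [inv_le_comm₀ (by linarith) (by linarith)]
      rw [inv_le_iff_one_le_mul₀ (by linarith)]
      nlinarith
    linarith
  rw [abs_le]
  constructor <;> linarith

theorem smt (cmp : CmpStmt) (lipb : LipbStmt) (moa : MoaStmt) : SmtStmt := by
  intro ψ ρ ε hψ hρ hε
  obtain ⟨L, hL, hdd⟩ := exists_dd_bound hψ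
  set η : ℝ := min (ε / 2) (1 / 2) with hη
  have hη0 : 0 < η := lt_min (by positivity) (by norm_num)
  obtain ⟨θ, hθ, hc⟩ := cmp η hη0
  have hr : 0 < 1 - ρ := by linarith
  refine ⟨θ * (1 - ρ) / (2 * (L + 1)), by positivity, ?_⟩
  intro t b f ht0 ht hb hS hB x
  have hb1 : ‖b‖ < 1 := hb.trans_lt hρ
  have hlog : (fun z => Real.log (Real.exp (t * ψ z))) = fun z => t * ψ z := by
    funext z
    rw [Real.log_exp]
  have hLG : LG (fun z => Real.exp (t * ψ z)) (t * L) := by
    refine ⟨sm_comp hψ (φ := fun s => Real.exp (t * s)) (by fun_prop),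
      fun z => Real.exp_pos _, fun z v => ?_⟩
    rw [hlog, dd_fun_smul t hψ, abs_mul, abs_of_nonneg ht0, mul_assoc]
    exact mul_le_mul_of_nonneg_left (hdd z v) ht0
  obtain ⟨-, h2⟩ := lipb _ _ hLG
  obtain ⟨h3, h4, h5⟩ := h2 b hb1
  have hsq : sq b ≤ 1 := by
    unfold FLX.sq
    rw [Real.sqrt_le_one]
    have := sq_nonneg ‖b‖
    linarith
  have hsq0 : 0 ≤ sq b := Real.sqrt_nonneg _
  have hLG2 : LG (fun z => Real.exp (t * ψ (mob b z))) (2 * (t * L) / (1 - ρ)) := by
    refine ⟨h3, h4, fun z v => ?_⟩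
    refine (h5 z v).trans ?_
    refine mul_le_mul_of_nonneg_right ?_ (norm_nonneg v)
    have h6 : 1 - ρ ≤ 1 + ⟪b, (z : E5)⟫_ℝ := by
      have h7 := abs_real_inner_le_norm b (z : E5)
      rw [S4_norm, mul_one, abs_le] at h7
      linarith [h7.1]
    have h8 : 2 * (t * L) * sq b ≤ 2 * (t * L) := by
      have : 0 ≤ 2 * (t * L) := by positivity
      nlinarith
    have h9 : 0 ≤ 2 * (t * L) := by positivity
    exact div_le_div₀ h9 h8 hr h6
  have h10 := hc _ _ f 0 x hLG2 hS (by rw [norm_zero]; exact one_pos)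
    (by rw [norm_zero, zero_smul]) (by rw [sm_pull0 moa]; exact hB) (by
      rw [sm_sq0, one_mul, div_le_iff₀ hr]
      rw [le_div_iff₀ (by positivity)] at ht
      nlinarith) x (by
      rw [real_inner_self_eq_norm_sq, S4_norm]
      have : η ≤ 1 / 2 := min_le_right _ _
      linarith)
  rw [sm_pull0 moa] at h10
  refine (sm_log h10 (min_le_right _ _)).trans ?_
  have : η ≤ ε / 2 := min_le_left _ _
  linarith

end Pool.Agent.PQP.H56
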