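import Pool.Agent.PQP.StmtsN

/-!
# Squad PQP, row CSN: the mass is not at the minimum point
-/

set_option autoImplicit false

open scoped InnerProductSpace Topology ContDiff Manifold
open MeasureTheory Filter Set

noncomputable section

namespace Pool.Agent.PQP.H56

open Pool.Agent.Helper42_Paneitz Pool.Agent.Helper82_Vir Pool.Agent.FLX Pool.Agent.PQP

theorem cs_closed (z : S4) (u : ℝ) : IsClosed (cap z u) :=
  isClosed_le (continuous_const.sub (continuous_inner_S4.comp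
    (continuous_const.prodMk continuous_id))) continuous_const

theorem cs_cont (v : E5) : Continuous fun x : S4 => ⟪v, (x : E5)⟫_ℝ :=
  continuous_const.inner continuous_subtype_val

/-- exponentials beat powers -/
theorem cs_exp {a b c : ℝ} (ha : 0 < a) (hc : 0 < c) :
    ∃ T : ℝ, 0 < T ∧ ∀ t : ℝ, T ≤ t → b * Real.exp (-(c * t)) < a / t ^ 3 := by
  have h1 := Real.tendsto_pow_mul_exp_neg_atTop_nhds_zero 3
  have h2 : Tendsto (fun t : ℝ => c * t) atTop atTop := tendsto_id.const_mul_atTop hc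
  have h3 := (h1.comp h2).const_mul (b / c ^ 3)
  rw [mul_zero] at h3
  have h4 := h3.eventually (gt_mem_nhds ha)
  obtain ⟨T, hT⟩ := (h4.and (eventually_gt_atTop (0 : ℝ))).exists_forall_of_atTop
  refine ⟨max T 1, lt_max_of_lt_right one_pos, fun t ht => ?_⟩
  obtain ⟨h5, h6⟩ := hT t ((le_max_left _ _).trans ht)
  rw [lt_div_iff₀ (by positivity)]
  have h7 : b / c ^ 3 * ((fun x : ℝ => x ^ 3 * Real.exp (-x)) ∘ fun t : ℝ => c * t) t =
      b * Real.exp (-(c * t)) * t ^ 3 := by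
    simp only [Function.comp]
    field_simp
  rw [h7] at h5
  exact h5

theorem csn (psn : PsnStmt) (psf : PsfStmt) (abd : AbdStmt) (kwa : KwaStmt) (jef : JefStmt)
    (wtl : WtlStmt) : CsnStmt := by
  intro ψ N hΨ
  obtain ⟨c, ρ₀, C, hc, hρ, hρ1, hC, p1, -, -⟩ := psn ψ N hΨ
  obtain ⟨c2, η, hc2, -, q1⟩ := psf ψ N hΨ ρ₀ hρ
  obtain ⟨C3, c3, hC3, hc3, a1⟩ := abd ψ N hΨ
  obtain ⟨w1, w2, L, hL, -, w3, -⟩ := wtl ψ hΨ.1
  obtain ⟨CJ, hCJ, j1⟩ := jef
  set ε₀ := ρ₀ / 4 with hε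
  have hε0 : 0 < ε₀ := by positivity
  obtain ⟨T, hT, hT1⟩ := cs_exp (a := c * c3) (b := L * (CJ * ε₀ ^ (-4 : ℝ))) (c := c2)
    (by positivity) hc2
  refine ⟨ε₀, max T (max 1 (1 / ρ₀)), hε0, lt_max_of_lt_left hT, ?_⟩
  intro t f ht hS hm
  have ht1 : T ≤ t := (le_max_left _ _).trans ht
  have ht2 : 1 ≤ t := ((le_max_left _ _).trans (le_max_right _ _)).trans ht
  have ht3 : 1 / t ≤ ρ₀ := by
    have h1 : 1 / ρ₀ ≤ t := ((le_max_right _ _).trans (le_max_right _ _)).trans ht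
    rw [div_le_iff₀ (by linarith)]
    rw [div_le_iff₀ hρ] at h1
    linarith
  have ht0 : 0 < t := by linarith
  obtain ⟨⟨hfc, hf0, hf1⟩, A, hA, hfA⟩ := hS
  have hD : Dens f := ⟨hfc, hf0, hf1⟩
  have hψ := hΨ.1
  have hddc : Continuous fun x : S4 => dd ψ x (N : E5) :=
    continuous_dd_field hψ (V := fun _ => (N : E5)) continuous_const
  -- the Kazdan-Warner identity
  have k1 := kwa (Wt ψ t) f (N : E5) 0 (w2 t).1 (w2 t).2 ⟨hD, A, hA, hfA⟩ (by simp)
  have k2 : ∀ x : S4, dlog (Wt ψ t) x (cf (N : E5) 0 x) = -(t * dd ψ x (N : E5)) := by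
    intro x
    rw [w1]
    unfold cf
    rw [ContinuousLinearMap.zero_apply, add_zero, dd_sub, dd_smul, dd_self hψ, mul_zero, sub_zero]
  simp_rw [k2] at k1
  have k3 : ∫ x, dd ψ x (N : E5) * f x ∂sig = 0 := by
    have e : ∀ x : S4, -(t * dd ψ x (N : E5)) * f x = (-t) * (dd ψ x (N : E5) * f x) := by
      intro x
      ring
    simp_rw [e] at k1
    rw [integral_const_mul] at k1
    rcases mul_eq_zero.1 k1 with h | h
    · linarith
    · exact h
  have hi : Integrable (fun x : S4 => dd ψ x (N : E5) * f x) sig := integrable_cont (hddc.mul hfc)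
  have hfi : Integrable f sig := integrable_cont hfc
  have hmeas : MeasurableSet (cap N ρ₀) := (cs_closed N ρ₀).measurableSet
  have k4 := integral_add_compl hmeas hi
  rw [k3] at k4
  -- the cap
  have k5 : c * GN N ρ₀ f ≤ -∫ x in cap N ρ₀, dd ψ x (N : E5) * f x ∂sig := by
    unfold GN
    rw [← integral_const_mul, ← integral_neg]
    refine setIntegral_mono_on ?_ ?_ hmeas fun x hx => ?_
    · exact (integrable_cont (continuous_const.mul
        ((continuous_const.sub (cs_cont (N : E5))).mul hfc))).integrableOn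
    · exact hi.neg.integrableOn
    · have h1 := mul_le_mul_of_nonneg_right (p1 x hx) (hf0 x).le
      linarith
  -- the complement
  have k6 : ∫ x in (cap N ρ₀)ᶜ, dd ψ x (N : E5) * f x ∂sig ≤
      L * ∫ x in (cap N ρ₀)ᶜ, f x ∂sig := by
    rw [← integral_const_mul]
    refine setIntegral_mono_on hi.integrableOn (hfi.const_mul L).integrableOn hmeas.compl
      fun x hx => ?_
    have h1 := w3 x (N : E5)
    have h2 : ‖(N : E5)‖ = 1 := by simp
    rw [h2, mul_one] at h1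
    exact mul_le_mul_of_nonneg_right ((le_abs_self _).trans h1) (hf0 x).le
  have hWc : Continuous (Wt ψ t) := continuous_of_sm (w2 t).1
  have hexp : ∀ x : S4, Real.exp (4 * pot f x) = f x / (A * Wt ψ t x) := by
    intro x
    have h1 := (w2 t).2 x
    rw [hfA x]
    field_simp
  have hexpc : Continuous fun x : S4 => Real.exp (4 * pot f x) := by
    simp_rw [hexp]
    exact hfc.div (continuous_const.mul hWc) fun x => (mul_pos hA ((w2 t).2 x)).ne'
  have k7 : ∫ x in (cap N ρ₀)ᶜ, f x ∂sig ≤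
      A * Real.exp (-(c2 * t)) * ∫ x in (cap N ρ₀)ᶜ, Real.exp (4 * pot f x) ∂sig := by
    rw [← integral_const_mul]
    refine setIntegral_mono_on hfi.integrableOn
      ((integrable_cont hexpc).const_mul _).integrableOn hmeas.compl fun x hx => ?_
    have h1 : ρ₀ ≤ 1 - ⟪(N : E5), (x : E5)⟫_ℝ := by
      have h2 : ¬ (1 - ⟪(N : E5), (x : E5)⟫_ℝ ≤ ρ₀) := hx
      exact (not_le.1 h2).le
    have h3 := (q1 x h1).1
    have h4 : Wt ψ t x ≤ Real.exp (-(c2 * t)) := by
      unfold Wt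
      apply Real.exp_le_exp.2
      have := mul_le_mul_of_nonneg_left h3 ht0.le
      linarith
    calc f x = A * Wt ψ t x * Real.exp (4 * pot f x) := hfA x
      _ ≤ A * Real.exp (-(c2 * t)) * Real.exp (4 * pot f x) := by gcongr
  have k8 := j1 f N (cap N ρ₀)ᶜ ε₀ hD hmeas.compl hε0 (by rw [hε]; linarith) (fun x hx => by
    have h2 : ¬ (1 - ⟪(N : E5), (x : E5)⟫_ℝ ≤ ρ₀) := hx
    have := (not_le.1 h2).le
    rw [hε]
    linarith) (hm.trans (by rw [hε]; linarith))
  have k9 := a1 t A f ht2 hD hA hfA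
  have k10 := k9.2 ρ₀ ht3
  have k11 := hT1 t ht1
  have k12 : c * (c3 * A / t ^ 3) ≤ L * (A * Real.exp (-(c2 * t)) * (CJ * ε₀ ^ (-4 : ℝ))) := by
    calc c * (c3 * A / t ^ 3) ≤ c * GN N ρ₀ f := by gcongr
      _ ≤ -∫ x in cap N ρ₀, dd ψ x (N : E5) * f x ∂sig := k5
      _ = ∫ x in (cap N ρ₀)ᶜ, dd ψ x (N : E5) * f x ∂sig := by linarith
      _ ≤ L * ∫ x in (cap N ρ₀)ᶜ, f x ∂sig := k6
      _ ≤ L * (A * Real.exp (-(c2 * t)) * ∫ x in (cap N ρ₀)ᶜ, Real.exp (4 * pot f x) ∂sig) := by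
        gcongr
      _ ≤ _ := by gcongr
  have k13 : A * (c * c3 / t ^ 3) ≤ A * (L * (CJ * ε₀ ^ (-4 : ℝ)) * Real.exp (-(c2 * t))) := by
    calc A * (c * c3 / t ^ 3) = c * (c3 * A / t ^ 3) := by ring
      _ ≤ _ := k12
      _ = _ := by ring
  have k14 := le_of_mul_le_mul_left k13 hA
  linarith

end Pool.Agent.PQP.H56
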